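import Mathlib
import Pool.Agent.H.MP_4f9d30_an.A

set_option autoImplicit false

namespace Pool.Agent.Results.MP_4f9d30_an.Yes

open Set MeasureTheory Metric
open scoped ENNReal NNReal

/-- coding map of the carpet -/
noncomputable def code {m n : ℕ} (D : Finset (Fin m × Fin n)) (ω : ℕ → D) : EuclideanSpace ℝ (Fin 2) :=
  !₂[∑' i, ((ω i).1.1 : ℕ) / (m : ℝ) ^ (i + 1), ∑' i, ((ω i).1.2 : ℕ) / (n : ℝ) ^ (i + 1)]

/-- admissible exponents for the Minkowski dimension of a measure -/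
def SM (μ : Measure (EuclideanSpace ℝ (Fin 2))) : Set ℝ :=
  {s | 0 ≤ s ∧ ∃ C > 0, ∀ x ∈ μ.support, ∀ r ∈ Ioc (0 : ℝ) 1, C * r ^ s ≤ μ.real (ball x r)}

/-- admissible exponents for the box dimension of a set -/
def SB (K : Set (EuclideanSpace ℝ (Fin 2))) : Set ℝ :=
  {s | 0 ≤ s ∧ ∃ C : ℝ, ∀ r : ℝ≥0, 0 < r → r ≤ 1 → (coveringNumber r K : ℝ≥0∞) ≤ .ofReal (C * (r : ℝ) ^ (-s))}

theorem one {m : ℕ} (hm : 2 ≤ m) (a b : ℕ → Fin m) {k : ℕ} (h : ∀ i < k, a i = b i) :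
    |∑' i, (a i : ℕ) / (m : ℝ) ^ (i + 1) - ∑' i, (b i : ℕ) / (m : ℝ) ^ (i + 1)| ≤ 2 * 2⁻¹ ^ k := by
  have m2 : (2 : ℝ) ≤ m := by exact_mod_cast hm
  have c : ∀ (x : ℝ) (i : ℕ), |x| ≤ m → ‖x / (m : ℝ) ^ (i + 1)‖ ≤ 2⁻¹ ^ i := fun x i hx => by
    rw [Real.norm_eq_abs, abs_div, abs_of_pos (a := _ ^ _) (by positivity), inv_pow, ← one_div,
      div_le_div_iff₀ (by positivity) (by positivity), one_mul, pow_succ']
    gcongr
  have l : ∀ x : Fin m, (0 : ℝ) ≤ (x : ℕ) ∧ ((x : ℕ) : ℝ) ≤ m := fun x => ⟨by positivity, by exact_mod_cast x.2.le⟩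
  have g := summable_geometric_of_lt_one (r := 2⁻¹) (by norm_num) (by norm_num)
  have s : ∀ a : ℕ → Fin m, Summable fun i => (a i : ℕ) / (m : ℝ) ^ (i + 1) := fun a =>
    g.of_norm_bounded fun i => c _ _ (by simpa using (l _).2)
  rw [← (s a).tsum_sub (s b), ← ((s a).sub (s b)).sum_add_tsum_nat_add k,
    Finset.sum_eq_zero fun i hi => by simp [h i (Finset.mem_range.1 hi)], zero_add]
  refine (Real.norm_eq_abs _).ge.trans (tsum_of_norm_bounded (hasSum_geometric_two.mul_right (2⁻¹ ^ k)) fun i => ?_)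
  rw [← sub_div, one_div, ← pow_add]
  exact c _ _ (abs_sub_le_iff.2 ⟨by linarith [l (a (i + k)), l (b (i + k))], by linarith [l (a (i + k)), l (b (i + k))]⟩)

theorem result (m n : ℕ) (hm : 2 ≤ m) (hn : m < n) (D : Finset (Fin m × Fin n)) (hD : 2 ≤ D.card) :
    ∃ ν : Measure (ℕ → D), IsProbabilityMeasure ν ∧ MeasurePreserving (fun ω i => ω (i + 1)) ν ν ∧
      (ν.map (code D)).support = range (code D) ∧
      ∃ s, IsGLB (SM (ν.map (code D))) s ∧ IsGLB (SB (range (code D))) s := by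
  have : Nonempty D := (Finset.card_pos.1 (by omega)).to_subtype
  refine Pool.Agent.H.MP_4f9d30_an.main _ fun k ω η h => ?_
  have a := one hm (fun i => (ω i).1.1) (fun i => (η i).1.1) fun i hi => by rw [h i hi]
  have b := one (hm.trans hn.le) (fun i => (ω i).1.2) (fun i => (η i).1.2) fun i hi => by rw [h i hi]
  rw [EuclideanSpace.dist_eq, Fin.sum_univ_two]
  refine Real.sqrt_le_iff.2 ⟨by positivity, ?_⟩
  simp only [code, Real.dist_eq, Matrix.cons_val_zero, Matrix.cons_val_one]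
  nlinarith [mul_self_le_mul_self (abs_nonneg _) a, mul_self_le_mul_self (abs_nonneg _) b, sq_nonneg ((2⁻¹ : ℝ) ^ k)]

end Pool.Agent.Results.MP_4f9d30_an.Yes
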